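import Pool.Agent.H25R3.RE.Defs
import Pool.Agent.H25R3.RE.Core

set_option autoImplicit false

namespace Pool.Agent.Results.MP_10b896_lc.NotUniversal

open Pool.Agent.H25R3.RE MeasureTheory Set

/-- the extended relation restricted to the good part -/
def RZ0 : Z0 → Z0 → Prop := fun z z' => RZ z.1 z'.1

theorem cber_RX : IsCBER RX where
  equivalence := RX_equiv
  borel := rel_borel eI DX DX_countable
  countable := rel_countable eI DX DX_countable

theorem cber_RZ0 : IsCBER RZ0 where
  equivalence :=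
    { refl := fun z => RZ_equiv.refl z.1
      symm := fun h => RZ_equiv.symm h
      trans := fun h h' => RZ_equiv.trans h h' }
  borel := by
    have h : {p : Z0 × Z0 | RZ0 p.1 p.2}
        = (fun p : Z0 × Z0 => ((p.1 : ZZ), (p.2 : ZZ))) ⁻¹' {p : ZZ × ZZ | RZ p.1 p.2} := rfl
    rw [h]
    exact ((measurable_subtype_coe.comp measurable_fst).prodMk
      (measurable_subtype_coe.comp measurable_snd)) (rel_borel eZ DZ DZ_countable)
  countable := by
    intro z
    have h : {z' : Z0 | RZ0 z z'} = Subtype.val ⁻¹' {z' : ZZ | RZ z.1 z'} := rfl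
    rw [h]
    exact (rel_countable eZ DZ DZ_countable z.1).preimage Subtype.val_injective

theorem cber_timesR {X : Type} [MeasurableSpace X] (E : X → X → Prop) (hE : IsCBER E) :
    IsCBER (timesR E) where
  equivalence :=
    { refl := fun p => ⟨hE.equivalence.refl p.1, rfl⟩
      symm := fun h => ⟨hE.equivalence.symm h.1, h.2.symm⟩
      trans := fun h h' => ⟨hE.equivalence.trans h.1 h'.1, h.2.trans h'.2⟩ }
  borel := by
    have h : {p : (X × ℝ) × (X × ℝ) | timesR E p.1 p.2}
        = ((fun p : (X × ℝ) × (X × ℝ) => (p.1.1, p.2.1)) ⁻¹' {p : X × X | E p.1 p.2})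
          ∩ {p : (X × ℝ) × (X × ℝ) | p.1.2 = p.2.2} := rfl
    rw [h]
    refine MeasurableSet.inter ?_ ?_
    · exact ((measurable_fst.comp measurable_fst).prodMk (measurable_fst.comp measurable_snd))
        hE.borel
    · exact measurableSet_eq_fun (measurable_snd.comp measurable_fst)
        (measurable_snd.comp measurable_snd)
  countable := by
    intro p
    have h : {q : X × ℝ | timesR E p q} ⊆ (fun x => (x, p.2)) '' {y | E p.1 y} := by
      rintro ⟨x, r⟩ ⟨h1, h2⟩
      exact ⟨x, h1, Prod.ext rfl h2⟩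
    exact ((hE.countable p.1).image _).mono h

theorem iso_timesR {X : Type} [MeasurableSpace X] (E : X → X → Prop) :
    BorelIso (timesR (timesR E)) (timesR E) := by
  have hR : ¬ Countable ℝ := not_countable
  have hRR : ¬ Countable (ℝ × ℝ) := not_countable
  let β : ℝ × ℝ ≃ᵐ ℝ := PolishSpace.measurableEquivOfNotCountable hRR hR
  refine ⟨fun p => (p.1.1, β (p.1.2, p.2)), ?_, ⟨?_, ?_⟩, ?_⟩
  · exact (measurable_fst.comp measurable_fst).prodMk
      (β.measurable.comp ((measurable_snd.comp measurable_fst).prodMk measurable_snd))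
  · rintro ⟨⟨x, s⟩, t⟩ ⟨⟨x', s'⟩, t'⟩ h
    have h1 := congrArg Prod.fst h
    have h2 := β.injective (congrArg Prod.snd h)
    simp only [Prod.mk.injEq] at h1 h2
    rw [h1, h2.1, h2.2]
  · rintro ⟨x, r⟩
    refine ⟨((x, (β.symm r).1), (β.symm r).2), ?_⟩
    simp
  · rintro ⟨⟨x, s⟩, t⟩ ⟨⟨x', s'⟩, t'⟩
    unfold timesR
    simp only
    constructor
    · rintro ⟨⟨h1, h2⟩, h3⟩
      exact ⟨h1, by rw [h2, h3]⟩
    · rintro ⟨h1, h2⟩
      have h3 := β.injective h2
      simp only [Prod.mk.injEq] at h3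
      exact ⟨⟨h1, h3.1⟩, h3.2⟩

theorem not_universal : ¬ UniversallyStructurable (timesR RX) := by
  rintro ⟨L, σ, Zs, mZs, hZs, Fs, ⟨hcber, hstr, huniv⟩, φ, hφm, hφb, hφr⟩
  -- the extension is `σ`-structurable
  have hstrF : Structurable RZ0 σ := by
    refine structurable_pullback RZ0 Fs cber_RZ0 σ hstr (fun z => φ (pr z.1, 0)) ?_ ?_ ?_ ?_
    · exact hφm.comp ((measurable_pr.comp measurable_subtype_coe).prodMk measurable_const)
    · intro z z' h
      exact (hφr _ _).1 ⟨RZ_pr _ _ h, rfl⟩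
    · intro z z' h heq
      have h1 := congrArg Prod.fst (hφb.1 heq)
      exact Subtype.ext (RZ_inj z.1 z'.1 z.2 h h1.symm).symm
    · intro z w hw
      obtain ⟨y, rfl⟩ := hφb.2 w
      obtain ⟨h1, h2⟩ := (hφr _ _).2 hw
      obtain ⟨z', hz', hpz'⟩ := RZ_lift z.1 y.1 h1
      refine ⟨⟨z', Z0_inv _ _ z.2 hz'⟩, hz', ?_⟩
      show φ (pr z', 0) = φ y
      rw [hpz']
      congr 1
      exact Prod.ext rfl h2
  obtain ⟨f, hfm, hfi, hfr, hfinv⟩ := huniv Z0 RZ0 cber_RZ0 hstrF
  have hemb : MeasurableEmbedding φ := hφm.measurableEmbedding hφb.1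
  let ψ : Zs → XX × ℝ := (Equiv.ofBijective φ hφb).symm
  have hψ : ∀ w, φ (ψ w) = w := fun w => (Equiv.ofBijective φ hφb).apply_symm_apply w
  refine core (fun z => ψ (f z)) ?_ ?_ ?_ ?_
  · rw [← hemb.measurable_comp_iff]
    have h1 : φ ∘ (fun z => ψ (f z)) = f := funext (fun z => hψ (f z))
    rw [h1]
    exact hfm
  · intro z w h
    apply hfi
    rw [← hψ (f z), ← hψ (f w)]
    exact congrArg φ h
  · intro z z'
    have h1 := hfr z z'
    have h2 := hφr (ψ (f z)) (ψ (f z'))
    rw [hψ, hψ] at h2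
    exact h1.trans h2.symm
  · intro z y h1 h2
    have h3 := (hφr (ψ (f z)) y).1 ⟨h1, h2⟩
    rw [hψ] at h3
    obtain ⟨z', hz'⟩ := hfinv z (φ y) h3
    refine ⟨z', ?_⟩
    apply hφb.1
    show φ (ψ (f z')) = φ y
    rw [hψ, hz']

/-- There is a countable Borel equivalence relation `E` which is Borel isomorphic to `ℝE` but is
not universally structurable. -/
theorem result : ∃ (X : Type) (_ : MeasurableSpace X) (_ : StandardBorelSpace X)
    (E : X → X → Prop), IsCBER E ∧ BorelIso (timesR E) E ∧ ¬ UniversallyStructurable E :=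
  ⟨XX × ℝ, inferInstance, inferInstance, timesR RX, cber_timesR RX cber_RX, iso_timesR RX,
    not_universal⟩

end Pool.Agent.Results.MP_10b896_lc.NotUniversal
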